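import Mathlib
import Pool.Agent.H.MP_23196e_co.B

set_option autoImplicit false

namespace Pool.Agent.Results.MP_23196e_co.Inf

open Pool.Agent.H.MP_23196e_co.B

/-- the Euclidean plane -/
abbrev Pl : Type := EuclideanSpace ℝ (Fin 2)

/-- infinite, no three points on a line, no four points on a circle -/
def Admissible (A : Set Pl) : Prop :=
  A.Infinite ∧
  (∀ a ∈ A, ∀ b ∈ A, ∀ c ∈ A, a ≠ b → a ≠ c → b ≠ c → ¬ Collinear ℝ {a, b, c}) ∧
  ∀ a ∈ A, ∀ b ∈ A, ∀ c ∈ A, ∀ e ∈ A, a ≠ b → a ≠ c → b ≠ c → a ≠ e → b ≠ e → c ≠ e →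
    ¬ EuclideanGeometry.Cospherical ({a, b, c, e} : Set Pl)

/-- the integer-distance graph on `A` -/
def G (A : Set Pl) : SimpleGraph A where
  Adj x y := x ≠ y ∧ ∃ m : ℤ, dist (x : Pl) (y : Pl) = m
  symm := ⟨fun _ _ h => ⟨h.1.symm, by rw [dist_comm]; exact h.2⟩⟩
  loopless := ⟨fun _ h => h.1 rfl⟩

/-- coordinates -/
def up (p : ℝ × ℝ) : Pl := !₂[p.1, p.2]

theorem dsq (x y : Pl) : dist x y ^ 2 = (x 0 - y 0) ^ 2 + (x 1 - y 1) ^ 2 := by
  rw [EuclideanSpace.dist_sq_eq]
  simp [Real.dist_eq]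

theorem up_inj : Function.Injective up := fun p q h =>
  Prod.ext (by simpa [up] using congrArg (· 0) h) (by simpa [up] using congrArg (· 1) h)

theorem result : (∃ A : Set Pl, Admissible A ∧ ∀ k : ℕ, ¬ (G A).Colorable k) ∧
    ∀ A : Set Pl, Nonempty ((G A).Coloring ℕ) := by
  constructor
  · obtain ⟨A, hA, hk⟩ := main
    have nc : ∀ k : ℕ, ¬ (G (up '' A)).Colorable k := by
      intro k hc
      obtain ⟨f⟩ := hc.mono (Nat.le_succ k)
      classical
      obtain ⟨x, hx, y, hy, e, ⟨m, hm⟩, hf⟩ := hk (k + 1) fun p =>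
        if h : p ∈ A then f ⟨up p, p, h, rfl⟩ else 0
      simp only [dif_pos hx, dif_pos hy] at hf
      refine f.valid ⟨fun h => e (up_inj (congrArg Subtype.val h)), |m|, ?_⟩ hf
      have := dsq (up x) (up y)
      push_cast
      refine (sq_eq_sq₀ dist_nonneg (abs_nonneg _)).1 ?_
      rw [this, sq_abs, ← hm]
      simp only [up, nq, Matrix.cons_val_zero, Matrix.cons_val_one]
      ring
    refine ⟨up '' A, ⟨fun hfin => ?_, ?_, ?_⟩, nc⟩
    · have := hfin.fintype
      exact nc _ (G (up '' A)).colorable_of_fintype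
    · simp only [Set.forall_mem_image]
      intro a ha b hb c hc ab ac bc h
      refine hA.1 a ha b hb c hc (fun e => ab (e ▸ rfl)) (fun e => ac (e ▸ rfl))
        (fun e => bc (e ▸ rfl)) ?_
      obtain ⟨v, hv⟩ := (collinear_iff_of_mem (p₀ := up a) (by simp)).1 h
      obtain ⟨r, hr⟩ := hv (up b) (by simp)
      obtain ⟨s, hs⟩ := hv (up c) (by simp)
      have r0 := congrArg (· 0) hr
      have r1 := congrArg (· 1) hr
      have s0 := congrArg (· 0) hs
      have s1 := congrArg (· 1) hs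
      simp [up] at r0 r1 s0 s1
      rw [col, r0, r1, s0, s1]
      ring
    · simp only [Set.forall_mem_image]
      rintro a ha b hb c hc e he ab ac bc ae be ce ⟨z, r, h⟩
      refine hA.2 a ha b hb c hc e he (fun e => ab (e ▸ rfl)) (fun e => ac (e ▸ rfl))
        (fun e => bc (e ▸ rfl)) (fun e => ae (e ▸ rfl)) (fun e => be (e ▸ rfl))
        (fun e => ce (e ▸ rfl)) ?_
      have h1 := dsq (up a) z
      have h2 := dsq (up b) z
      have h3 := dsq (up c) z
      have h4 := dsq (up e) z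
      rw [h _ (by simp)] at h1 h2 h3 h4
      simp only [up, Matrix.cons_val_zero, Matrix.cons_val_one] at h1 h2 h3 h4
      unfold cyc nq
      have e2 := h1.symm.trans h2
      have e3 := h1.symm.trans h3
      have e4 := h1.symm.trans h4
      have key : ∀ u v w : ℝ, u = col a c e → v = col a b e → w = col a b c →
          ((b.1 - a.1) ^ 2 + (b.2 - a.2) ^ 2) * u - ((c.1 - a.1) ^ 2 + (c.2 - a.2) ^ 2) * v +
            ((e.1 - a.1) ^ 2 + (e.2 - a.2) ^ 2) * w = 0 := by
        rintro _ _ _ rfl rfl rfl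
        linear_combination (norm := (unfold col; ring))
          (-col a c e) * e2 + col a b e * e3 - col a b c * e4
      exact key _ _ _ rfl rfl rfl
  · intro A
    refine ⟨SimpleGraph.Coloring.mk (fun x => Encodable.encode (⌊2 * x.1 0⌋, ⌊2 * x.1 1⌋)) ?_⟩
    rintro x y ⟨e, m, hm⟩ h
    have h := Encodable.encode_injective h
    simp only [Prod.mk.injEq] at h
    have h0 := abs_lt.1 (Int.abs_sub_lt_one_of_floor_eq_floor h.1)
    have h1 := abs_lt.1 (Int.abs_sub_lt_one_of_floor_eq_floor h.2)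
    have d := dsq x y
    have p : 0 < dist (x : Pl) y := dist_pos.2 fun h => e (Subtype.ext h)
    rw [hm] at d p
    have : (1 : ℝ) ≤ m := by exact_mod_cast p
    nlinarith

end Pool.Agent.Results.MP_23196e_co.Inf
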